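import Mathlib
import Pool.Agent.H31.Mag2

set_option autoImplicit false
open Matrix Finset ComplexConjugate Pool.Agent.H31.Mag

namespace Pool.Agent.Results.MP_efe8c5_co.Counter

/-- The suspension: one new vertex adjacent to all old vertices. -/
def susp {V : Type} (G : SimpleGraph V) : SimpleGraph (Option V) where
  Adj
    | none, none => False
    | some a, some b => G.Adj a b
    | _, _ => True
  symm := ⟨by rintro (_ | a) (_ | b) h; exacts [h, trivial, trivial, h.symm]⟩
  loopless := ⟨by rintro (_ | a) h; exacts [h, h.ne rfl]⟩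

def H : SimpleGraph (Fin 5) where
  Adj i j := i ≠ j ∧ (i = 0 ∨ j = 0 ∨ (i ≠ 4 ∧ j ≠ 4))
  symm := ⟨by decide⟩
  loopless := ⟨by decide⟩

instance : DecidableRel H.Adj := fun i j => by unfold H; infer_instance

instance : DecidableRel (susp H).Adj := fun a b =>
  match a, b with
  | none, none => isFalse id
  | some a, some b => inferInstanceAs (Decidable (H.Adj a b))
  | none, some _ => isTrue trivial
  | some _, none => isTrue trivial

theorem result : ¬ ∀ (n : ℕ) (G : SimpleGraph (Fin n)), 0 < n → (∀ v, ∃ w, G.Adj v w) →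
    nu (susp G) = nu G + 1 := by
  intro h
  have h0 := h 5 H (by omega) (by decide)
  have p : Pot H fun _ _ => (-1 : ℝ) := by simp [Pot]
  have h1 : 0.57 ≤ nu H := (low (herm p) _ (lap_real H _ _ fun x => by
    have d : ∀ i, H.degree i = ![4, 3, 3, 3, 1] i := by decide
    simp +decide only [d, Fin.sum_univ_succ, Fin.sum_univ_zero]
    simp
    nlinarith [sq_nonneg (x 0 + x 1 + x 2 + x 3), sq_nonneg (x 1), sq_nonneg (x 2), sq_nonneg (x 3),
      sq_nonneg (x 0), sq_nonneg (x 0 + 0.43 * x 4)])).trans (le_nu p)
  have h2 : nu (susp H) ≤ 28 / 18 := nu_le fun σ hσ => by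
    obtain ⟨a1, a2⟩ := hσ (some 4) (some 0) (by decide)
    obtain ⟨b1, b2⟩ := hσ (some 4) none (by decide)
    obtain ⟨c1, c2⟩ := hσ (some 0) none (by decide)
    have := ray (herm hσ) fun v => match v with
      | none => conj (σ (some 4) none)
      | some i => ![conj (σ (some 4) (some 0)), 0, 0, 0, 4] i
    have d : ∀ i, (susp H).degree (some i) = ![5, 4, 4, 4, 2] i := by decide
    have d' : (susp H).degree none = 5 := by decide
    rw [qf] at this
    simp +decide only [d, d', Fin.sum_univ_succ, Fin.sum_univ_zero, Fintype.sum_option] at this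
    have e := (abs_le.mp (Complex.abs_re_le_norm
      (σ (some 4) (some 0) * σ (some 0) none * conj (σ (some 4) none)))).1
    have a3 := Complex.sq_norm (σ (some 4) (some 0))
    have b3 := Complex.sq_norm (σ (some 4) none)
    simp [a1, a2, b1, b2, c1, c2, Complex.normSq_apply] at this e a3 b3
    unfold lam1
    linarith
  linarith

end Pool.Agent.Results.MP_efe8c5_co.Counter
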